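import Pool.Agent.P.MP_e0d06b_an.Main

/-!
Beta and theta numbers of closed manifolds with the linear approximation property.
-/

open Set Metric Filter Topology

namespace Pool.Agent.Results.MP_e0d06b_an.ThetaBeta

open Pool.Agent.P.MP_e0d06b_an

/-- `β^m_A(B(x,r))`. -/
noncomputable def beta (m : ℕ) {n : ℕ} (A : Set (EuclideanSpace ℝ (Fin n)))
    (x : EuclideanSpace ℝ (Fin n)) (r : ℝ) : ℝ :=
  (1 / r) * ⨅ P : {P : Submodule ℝ (EuclideanSpace ℝ (Fin n)) // Module.finrank ℝ P = m},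
    ⨆ z : ↥(closedBall x r ∩ A), infDist z.1 ((fun v => x + v) '' (P.1 : Set _))

/-- `θ^m_A(B(x,r))`. -/
noncomputable def theta (m : ℕ) {n : ℕ} (A : Set (EuclideanSpace ℝ (Fin n)))
    (x : EuclideanSpace ℝ (Fin n)) (r : ℝ) : ℝ :=
  (1 / r) * ⨅ P : {P : Submodule ℝ (EuclideanSpace ℝ (Fin n)) // Module.finrank ℝ P = m},
    hausdorffDist (((fun v => x + v) '' (P.1 : Set _)) ∩ closedBall x r) (A ∩ closedBall x r)

lemma beta_nonneg (m : ℕ) {n : ℕ} (A : Set (EuclideanSpace ℝ (Fin n)))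
    (x : EuclideanSpace ℝ (Fin n)) {r : ℝ} (hr : 0 < r) : 0 ≤ beta m A x r :=
  mul_nonneg (by positivity) (Real.iInf_nonneg fun _ => Real.iSup_nonneg fun _ => infDist_nonneg)

lemma good_of_beta_lt {m n : ℕ} (hmn : m ≤ n) {A : Set (EuclideanSpace ℝ (Fin n))}
    {x : EuclideanSpace ℝ (Fin n)} {r b : ℝ} (hr : 0 < r) (h : beta m A x r < b) :
    ∃ P : {P : Submodule ℝ (EuclideanSpace ℝ (Fin n)) // Module.finrank ℝ P = m},
      ∃ p : Pl (EuclideanSpace ℝ (Fin m)) (EuclideanSpace ℝ (Fin n)),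
        (∀ w, p.J w ∈ P.1) ∧ (∀ v ∈ P.1, ∃ w, p.J w = v) ∧ Good A x r p (b * r) := by
  have : Nonempty {P : Submodule ℝ (EuclideanSpace ℝ (Fin n)) // Module.finrank ℝ P = m} := by
    obtain ⟨f, hf⟩ := exists_linearIndependent_of_le_finrank (R := ℝ)
      (M := EuclideanSpace ℝ (Fin n)) (n := m) (by simpa using hmn)
    exact ⟨⟨_, by simpa using finrank_span_eq_card hf⟩⟩
  rw [beta, one_div, inv_mul_lt_iff₀ hr] at h
  obtain ⟨P, hP⟩ := exists_lt_of_ciInf_lt h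
  obtain ⟨p, hp1, hp2⟩ := exists_pl P.1 P.2
  refine ⟨P, p, hp1, hp2, fun z hz hzx => ?_⟩
  have hne : ((fun v => x + v) '' (P.1 : Set (EuclideanSpace ℝ (Fin n)))).Nonempty :=
    ⟨x + 0, 0, P.1.zero_mem, rfl⟩
  have hbdd : BddAbove (range fun z : ↥(closedBall x r ∩ A) =>
      infDist z.1 ((fun v => x + v) '' (P.1 : Set _))) := by
    refine ⟨r, ?_⟩
    rintro _ ⟨z, rfl⟩
    have hx : x ∈ (fun v => x + v) '' (P.1 : Set (EuclideanSpace ℝ (Fin n))) :=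
      ⟨0, P.1.zero_mem, by simp⟩
    exact (infDist_le_dist_of_mem hx).trans z.2.1
  have h1 := (le_ciSup hbdd ⟨z, by rwa [mem_closedBall, dist_eq_norm], hz⟩).trans_lt hP
  obtain ⟨_, ⟨v, hv, rfl⟩, h2⟩ := (infDist_lt_iff hne).1 h1
  obtain ⟨w, rfl⟩ := hp2 v hv
  rw [dist_eq_norm, ← sub_sub] at h2
  have h3 := p.pyth_sub (z - x) w
  have h4 : p.N (z - x) ≤ ‖z - x - p.J w‖ :=
    (abs_le_of_sq_le_sq' (by nlinarith [sq_nonneg ‖p.π (z - x) - w‖]) (norm_nonneg _)).2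
  linarith

theorem result (m : ℕ) (hm : 1 ≤ m) :
    ∃ δ₀ ∈ Ioo (0 : ℝ) 1, ∃ φ : ℝ → ℝ, MapsTo φ (Icc 0 1) (Icc 0 1) ∧
      Tendsto φ (𝓝[Icc 0 1] 0) (𝓝 0) ∧ (∀ t, φ t ≤ 2 ^ 15 * t ^ 2) ∧
      ∀ (n : ℕ), m + 1 ≤ n → ∀ M : Set (EuclideanSpace ℝ (Fin n)), IsCompact M →
        Nonempty (ChartedSpace (EuclideanSpace ℝ (Fin m)) M) →
        ∀ δ R : ℝ, δ ∈ Ioo 0 δ₀ → 0 < R →
          (∀ x ∈ M, ∀ r ∈ Ioo 0 R, beta m M x r < δ) →
          ∀ x ∈ M, ∀ r ∈ Ioo 0 R, theta m M x r ≤ (1 + φ δ) * beta m M x r := by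
  obtain ⟨δ₀, h0, h1, hflat⟩ := flat m hm
  refine ⟨δ₀, ⟨h0, by linarith⟩, fun t => min 1 (2 ^ 15 * t ^ 2), fun t _ =>
    ⟨le_min zero_le_one (by positivity), min_le_left _ _⟩, ?_, fun t => min_le_right _ _, ?_⟩
  · have : Continuous fun t : ℝ => min 1 (2 ^ 15 * t ^ 2) := by fun_prop
    simpa using (this.tendsto 0).mono_left nhdsWithin_le_nhds
  intro n hn M hM hcs δ R hδ _ hL x hx r hr
  have hmn : m ≤ n := by omega
  have hδ1 : δ ≤ 1 / 256 := hδ.2.le.trans h1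
  have hF := hflat _ M hM hcs δ R hδ.1 hδ.2.le fun x hx r hr hrR => by
    obtain ⟨-, p, -, -, hp⟩ := good_of_beta_lt hmn hr (hL x hx r ⟨hr, hrR⟩)
    exact ⟨p, hp⟩
  have hφ : min 1 (2 ^ 15 * δ ^ 2) = 2 ^ 15 * δ ^ 2 := min_eq_right (by nlinarith [hδ.1])
  simp only [hφ]
  have hβ := beta_nonneg m M x hr.1
  have key : ∀ b ∈ Ioo (beta m M x r) δ, theta m M x r ≤ (1 + 2 ^ 15 * δ ^ 2) * b := by
    intro b hb
    have hb0 : 0 < b := hβ.trans_lt hb.1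
    have hbr : 0 < b * r := mul_pos hb0 hr.1
    have hbδ : b * r ≤ δ * r := mul_le_mul_of_nonneg_right hb.2.le hr.1.le
    obtain ⟨P, p, hp1, hp2, hp⟩ := good_of_beta_lt hmn hr.1 hb.1
    have hcr := crawl hδ1 hr.1 hbr hbδ hx hp fun y hy => by
      have := hF (10 * (b * r)) (by positivity) (by nlinarith [hr.1, hr.2]) y hy
      have e : 2 * δ * (10 * (b * r)) = 20 * δ * (b * r) := by ring
      rwa [e] at this
    rw [theta, one_div, inv_mul_le_iff₀ hr.1]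
    refine (ciInf_le ⟨0, ?_⟩ P).trans ?_
    · rintro _ ⟨Q, rfl⟩
      exact hausdorffDist_nonneg
    refine hausdorffDist_le_of_mem_dist (by have := hr.1; positivity) ?_ ?_
    · rintro _ ⟨⟨v, hv, rfl⟩, hvr⟩
      obtain ⟨w, rfl⟩ := hp2 v hv
      have hw : ‖w‖ ≤ r := by
        rwa [mem_closedBall, dist_eq_norm, add_sub_cancel_left, p.normJ] at hvr
      obtain ⟨z, hz, hzx, hzw⟩ := hcr w hw
      refine ⟨z, ⟨hz, by rwa [mem_closedBall, dist_eq_norm]⟩, ?_⟩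
      rw [dist_comm, dist_eq_norm]
      refine (abs_le_of_sq_le_sq' (hzw.trans ?_) (by have := hr.1; positivity)).2
      have e : (r * ((1 + 2 ^ 15 * δ ^ 2) * b)) ^ 2 = (b * r) ^ 2 * (1 + 2 ^ 15 * δ ^ 2) ^ 2 := by
        ring
      rw [e]
      refine mul_le_mul_of_nonneg_left ?_ (sq_nonneg _)
      nlinarith [sq_nonneg (δ ^ 2)]
    · rintro z ⟨hz, hzr⟩
      rw [mem_closedBall, dist_eq_norm] at hzr
      refine ⟨x + p.J (p.π (z - x)), ⟨⟨_, hp1 _, rfl⟩, ?_⟩, ?_⟩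
      · rw [mem_closedBall, dist_eq_norm, add_sub_cancel_left, p.normJ]
        exact (p.π_le _).trans hzr
      · rw [dist_eq_norm, ← sub_sub]
        refine (hp z hz hzr).trans ?_
        nlinarith [sq_nonneg δ]
  have ht : Tendsto (fun b : ℝ => (1 + 2 ^ 15 * δ ^ 2) * b) (𝓝[>] (beta m M x r))
      (𝓝 ((1 + 2 ^ 15 * δ ^ 2) * beta m M x r)) :=
    ((continuous_const.mul continuous_id).tendsto _).mono_left nhdsWithin_le_nhds
  exact ge_of_tendsto ht (mem_of_superset (Ioo_mem_nhdsGT (hL x hx r hr)) key)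

end Pool.Agent.Results.MP_e0d06b_an.ThetaBeta
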